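import Pool.Agent.Lib.helper3.GSp

/-- A commutative unital Banach algebra whose spectrum is countably generated while its Gelfand
space is not separable. -/
theorem Pool.Agent.Results.MP_3ada3c_an.Example.result :
    ∃ (A : Type) (_ : NormedCommRing A) (_ : NormedAlgebra ℂ A) (_ : CompleteSpace A),
      ‖(1 : A)‖ = 1 ∧
      (∃ S : Set (WeakDual.characterSpace ℂ A), S.Countable ∧ ∀ x : A,
        spectrum ℂ x = closure ((fun φ : WeakDual.characterSpace ℂ A => φ x) '' S)) ∧
      ¬ TopologicalSpace.SeparableSpace (WeakDual.characterSpace ℂ A) :=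
  ⟨Pool.Agent.Lib.helper3.GS.A, inferInstance, inferInstance, inferInstance,
    Pool.Agent.Lib.helper3.GS.norm_oneA, Pool.Agent.Lib.helper3.GS.generated,
    Pool.Agent.Lib.helper3.GS.not_sep⟩
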